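import Pool.Agent.Helper88.QR.StmtsB

/-!
# Row B15: distances in a quadrangulation form a labelling
-/

namespace QRB

namespace B15h48

open QR Equiv.Perm Classical

variable {D : Type} [Fintype D] (m : RMap D)

theorem mult_ne {x y : m.Vert} : m.mult x y ≠ 0 ↔ ∃ d, m.tail d = x ∧ m.tail (m.opp d) = y := by
  unfold RMap.mult
  rw [← Nat.pos_iff_ne_zero, Finite.card_pos_iff]
  constructor
  · rintro ⟨d, h⟩; exact ⟨d, h⟩
  · rintro ⟨d, h⟩; exact ⟨⟨d, h⟩⟩

theorem tail_rot (d : D) : m.tail (m.rot d) = m.tail d := by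
  apply Quotient.sound
  show m.rot.SameCycle (m.rot d) d
  exact sameCycle_apply_left.2 (SameCycle.refl _ _)

theorem near_mono {V : Type} {c : V → V → ℕ} {x y : V} {r s : ℕ} (h : r ≤ s)
    (hx : SPR.Near c r x y) : SPR.Near c s x y := by
  induction h with
  | refl => exact hx
  | step _ ih => exact Or.inl ih

theorem near_step {v0 : m.Vert} {d : D} {r : ℕ} (h : SPR.Near m.mult r v0 (m.tail d)) :
    SPR.Near m.mult (r + 1) v0 (m.tail (m.opp d)) :=
  Or.inr ⟨_, h, (mult_ne m).2 ⟨d, rfl, rfl⟩⟩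

theorem fin (hc : m.Conn) (v0 : m.Vert) (d : D) : ∃ r, SPR.Near m.mult r v0 (m.tail d) := by
  obtain ⟨d0, hd0⟩ := Quotient.exists_rep v0
  have h := hc d0 d
  induction h with
  | refl => exact ⟨0, hd0.symm⟩
  | tail _ h2 ih =>
    obtain ⟨r, hr⟩ := ih
    rcases h2 with rfl | rfl
    · exact ⟨r, by rw [tail_rot]; exact hr⟩
    · exact ⟨r + 1, near_step m hr⟩

theorem lam_le (hc : m.Conn) (v0 : m.Vert) (d : D) (r : ℕ) :
    lamD m v0 d ≤ r ↔ SPR.Near m.mult r v0 (m.tail d) := by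
  have hne : {r | SPR.Near m.mult r v0 (m.tail d)}.Nonempty := fin m hc v0 d
  constructor
  · intro h
    exact near_mono h (Nat.sInf_mem hne)
  · intro h
    exact Nat.sInf_le h

theorem par (v0 : m.Vert) (g : m.Vert → ZMod 2)
    (hg : ∀ d, (1 : ZMod 2) = g (m.tail (m.opp d)) - g (m.tail d)) (r : ℕ) :
    ∀ x, SPR.Near m.mult r v0 x → ∃ s ≤ r, SPR.Near m.mult s v0 x ∧ g x = g v0 + (s : ZMod 2) := by
  induction r with
  | zero =>
    intro x hx
    have hx' : v0 = x := hx
    exact ⟨0, le_rfl, hx, by rw [hx']; simp⟩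
  | succ r ih =>
    intro x hx
    rcases hx with hx | ⟨z, hz, hzx⟩
    · obtain ⟨s, hs, h1, h2⟩ := ih x hx
      exact ⟨s, by omega, h1, h2⟩
    · obtain ⟨s, hs, h1, h2⟩ := ih z hz
      obtain ⟨d, rfl, rfl⟩ := (mult_ne m).1 hzx
      refine ⟨s + 1, by omega, near_step m h1, ?_⟩
      have := hg d
      push_cast
      rw [← add_assoc, ← h2, this]
      ring

end B15h48

open B15h48 QR Equiv.Perm Classical in
/-- row B15 -/
theorem st_B15 (h : QR.ST_PL) : ST_B15 := by
  intro D _ m o N P v0 hQ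
  have hc := hQ.planar.2.1
  obtain ⟨g, hg⟩ := h D m (ZMod 2) (fun _ => 1) o hQ.planar (fun _ => by decide) (by
    intro d hd
    have h1 : m.fdeg d = 4 := hQ.inner d hd
    rw [Finset.sum_const]
    have h2 : (Finset.univ.filter (fun d' => m.face.SameCycle d d')).card = 4 := by
      rw [← h1]
      unfold RMap.fdeg
      rw [Nat.card_eq_fintype_card, Fintype.card_subtype]
    rw [h2]
    decide)
  have hle := lam_le m hc v0
  have hpar : ∀ d, g (m.tail d) = g v0 + (lamD m v0 d : ZMod 2) := by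
    intro d
    obtain ⟨s, hs, h1, h2⟩ := par m v0 g hg (lamD m v0 d) _ ((hle d _).1 le_rfl)
    have h3 := (hle d s).2 h1
    have h4 : s = lamD m v0 d := le_antisymm hs h3
    rw [h2, h4]
  have hstep : ∀ d, lamD m v0 (m.opp d) ≤ lamD m v0 d + 1 := fun d =>
    (hle _ _).2 (near_step m ((hle d _).1 le_rfl))
  have hstep2 : ∀ d, lamD m v0 d ≤ lamD m v0 (m.opp d) + 1 := by
    intro d
    have := hstep (m.opp d)
    rwa [m.opp_opp] at this
  have hzero : ∀ d, lamD m v0 d = 0 ↔ m.tail d = v0 := by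
    intro d
    rw [← Nat.le_zero, hle]
    exact eq_comm
  refine ⟨⟨?_, ?_, ?_, ?_, ?_⟩, hzero, hle⟩
  · intro d
    unfold lamD
    rw [tail_rot]
  · intro d
    have h1 := hstep d
    have h2 := hstep2 d
    have h3 : lamD m v0 (m.opp d) ≠ lamD m v0 d := by
      intro h4
      have h5 := hg d
      rw [hpar (m.opp d), hpar d, h4, sub_self] at h5
      exact one_ne_zero h5
    omega
  · intro d hd
    obtain ⟨k, hk⟩ : ∃ k, lamD m v0 d = k + 1 := ⟨lamD m v0 d - 1, by omega⟩
    have h1 : SPR.Near m.mult (k + 1) v0 (m.tail d) := (hle d _).1 hk.le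
    rcases h1 with h1 | ⟨z, hz, hzx⟩
    · have := (hle d k).2 h1
      omega
    · obtain ⟨e, rfl, he⟩ := (mult_ne m).1 hzx
      refine ⟨m.opp e, Quotient.exact he.symm, ?_⟩
      rw [m.opp_opp]
      have h2 := (hle e k).2 hz
      have h3 : lamD m v0 (m.opp e) = lamD m v0 d := by
        unfold lamD
        rw [he]
      have h4 := hstep e
      omega
  · intro d d' h1 h2
    rw [hzero] at h1 h2
    exact Quotient.exact (h1.trans h2.symm)
  · obtain ⟨d0, hd0⟩ := Quotient.exists_rep v0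
    exact ⟨d0, (hzero d0).2 hd0⟩

end QRB
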