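import Pool.Agent.Helper98.QR.StmtsE

/-!
# Row E11: disc model of a disjoint union
-/

namespace QR

namespace E11h48

open Classical SPR

noncomputable section

variable {ι : Type} [Fintype ι] {V : ι → Type} [∀ i, Fintype (V i)] {c : ∀ i, V i → V i → ℕ}
  {K : ℝ} (M : ∀ i, DiscModel K (c i))

/-- the index set -/
abbrev J : Type := Σ i, Fin (M i).N

/-- the number of edges between two discs -/
def ee (x y : J M) : ℕ := if h : x.1 = y.1 then (M y.1).e (h ▸ x.2) y.2 else 0

theorem ee_same (i : ι) (k l : Fin (M i).N) : ee M ⟨i, k⟩ ⟨i, l⟩ = (M i).e k l := by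
  unfold ee
  rw [dif_pos rfl]

theorem ee_ne {i j : ι} (k : Fin (M i).N) (l : Fin (M j).N) (h : i ≠ j) :
    ee M ⟨i, k⟩ ⟨j, l⟩ = 0 := dif_neg h

theorem sig_same (i : ι) (u v : V i) : sigC c ⟨i, u⟩ ⟨i, v⟩ = c i u v := by
  unfold sigC
  rw [dif_pos rfl]

theorem sig_ne {i j : ι} (u : V i) (v : V j) (h : i ≠ j) : sigC c ⟨i, u⟩ ⟨j, v⟩ = 0 := dif_neg h

/-- the owner -/
def ow (x : J M) : Σ i, V i := ⟨x.1, (M x.1).own x.2⟩

/-- the parent -/
def pa (x : J M) : J M := ⟨x.1, (M x.1).par x.2⟩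

theorem sum_own (f : J M → ℕ) (i : ι) (a : V i) :
    (∑ d with ow M d = ⟨i, a⟩, f d) = ∑ k with (M i).own k = a, f ⟨i, k⟩ := by
  rw [Finset.sum_filter, Fintype.sum_sigma, Finset.sum_eq_single i, Finset.sum_filter]
  · refine Finset.sum_congr rfl (fun k _ => ?_)
    congr 1
    unfold ow
    simp
  · intro j _ hj
    refine Finset.sum_eq_zero (fun k _ => ?_)
    rw [if_neg]
    intro h
    exact hj (congrArg Sigma.fst h)
  · intro h; exact absurd (Finset.mem_univ _) h

theorem sum_all (f : J M → ℕ) (i : ι) (h : ∀ j, j ≠ i → ∀ l, f ⟨j, l⟩ = 0) :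
    (∑ d, f d) = ∑ k, f ⟨i, k⟩ := by
  rw [Fintype.sum_sigma, Finset.sum_eq_single i]
  · intro j _ hj
    exact Finset.sum_eq_zero (fun k _ => h j hj k)
  · intro h; exact absurd (Finset.mem_univ _) h

theorem deg_sig (i : ι) (u : V i) : SPR.deg (sigC c) ⟨i, u⟩ = SPR.deg (c i) u := by
  unfold SPR.deg
  rw [finsum_eq_sum_of_fintype, finsum_eq_sum_of_fintype, Fintype.sum_sigma,
    Finset.sum_eq_single i]
  · exact Finset.sum_congr rfl (fun v _ => sig_same i u v)
  · intro j _ hj
    exact Finset.sum_eq_zero (fun v _ => sig_ne u v (Ne.symm hj))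
  · intro h; exact absurd (Finset.mem_univ _) h

theorem pa_iter (n : ℕ) (i : ι) (k : Fin (M i).N) :
    (pa M)^[n] ⟨i, k⟩ = ⟨i, ((M i).par)^[n] k⟩ := by
  induction n generalizing k with
  | zero => rfl
  | succ n ih => rw [Function.iterate_succ_apply, Function.iterate_succ_apply]; exact ih _

theorem bound : ∃ R : ℝ, 0 ≤ R ∧ ∀ x : J M, ‖(M x.1).ctr x.2‖ + (M x.1).rad x.2 ≤ R := by
  refine ⟨∑ x : J M, (‖(M x.1).ctr x.2‖ + (M x.1).rad x.2), ?_, ?_⟩
  · exact Finset.sum_nonneg (fun x _ => add_nonneg (norm_nonneg _) ((M x.1).rad_pos _).le)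
  · intro x
    exact Finset.single_le_sum (f := fun x : J M => ‖(M x.1).ctr x.2‖ + (M x.1).rad x.2)
      (fun x _ => add_nonneg (norm_nonneg _) ((M x.1).rad_pos _).le) (Finset.mem_univ x)

include M in
/-- the disc model of the union -/
theorem main (hK : 1 ≤ K) : Nonempty (DiscModel K (sigC c)) := by
  obtain ⟨R, hR0, hR⟩ := bound M
  let φ : Fin (Fintype.card (J M)) ≃ J M := (Fintype.equivFin (J M)).symm
  let idx : ι → ℝ := fun i => ((Fintype.equivFin ι i : ℕ) : ℝ)
  have hidx : ∀ i j, i ≠ j → 1 ≤ |idx i - idx j| := by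
    intro i j hij
    have h1 : ((Fintype.equivFin ι i : ℕ) : ℤ) ≠ ((Fintype.equivFin ι j : ℕ) : ℤ) := by
      intro h
      apply hij
      apply (Fintype.equivFin ι).injective
      apply Fin.ext
      exact_mod_cast h
    have h2 : 1 ≤ |((Fintype.equivFin ι i : ℕ) : ℤ) - ((Fintype.equivFin ι j : ℕ) : ℤ)| :=
      Int.one_le_abs (sub_ne_zero.2 h1)
    have h3 : (1 : ℝ) ≤ |(((Fintype.equivFin ι i : ℕ) : ℤ) : ℝ) -
        (((Fintype.equivFin ι j : ℕ) : ℤ) : ℝ)| := by exact_mod_cast h2
    simpa [idx] using h3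
  let ct : J M → ℂ := fun x => (M x.1).ctr x.2 + ((2 * R * idx x.1 : ℝ) : ℂ)
  have dsame : ∀ (i : ι) (k l : Fin (M i).N), dist (ct ⟨i, k⟩) (ct ⟨i, l⟩) =
      dist ((M i).ctr k) ((M i).ctr l) := fun i k l => dist_add_right _ _ _
  have ddiff : ∀ x y : J M, x.1 ≠ y.1 → (M x.1).rad x.2 + (M y.1).rad y.2 ≤
      dist (ct x) (ct y) := by
    intro x y hxy
    have h1 := hR x
    have h2 := hR y
    have h3 := hidx _ _ hxy
    have h4 : ‖((2 * R * idx x.1 : ℝ) : ℂ) - ((2 * R * idx y.1 : ℝ) : ℂ)‖ =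
        2 * R * |idx x.1 - idx y.1| := by
      rw [← Complex.ofReal_sub, Complex.norm_real, Real.norm_eq_abs, ← mul_sub, abs_mul,
        abs_of_nonneg (by positivity)]
    have h5 : 2 * R ≤ 2 * R * |idx x.1 - idx y.1| := by nlinarith
    have h6 : ((2 * R * idx x.1 : ℝ) : ℂ) - ((2 * R * idx y.1 : ℝ) : ℂ) =
        (ct x - ct y) - (M x.1).ctr x.2 + (M y.1).ctr y.2 := by
      simp only [ct]; ring
    have h7 : ‖((2 * R * idx x.1 : ℝ) : ℂ) - ((2 * R * idx y.1 : ℝ) : ℂ)‖ ≤
        ‖ct x - ct y‖ + ‖(M x.1).ctr x.2‖ + ‖(M y.1).ctr y.2‖ := by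
      rw [h6]
      refine (norm_add_le _ _).trans ?_
      gcongr
      exact norm_sub_le _ _
    rw [dist_eq_norm]
    linarith
  refine ⟨{
    N := Fintype.card (J M)
    ctr := fun d => ct (φ d)
    rad := fun d => (M (φ d).1).rad (φ d).2
    own := fun d => ow M (φ d)
    root := fun v => φ.symm ⟨v.1, (M v.1).root v.2⟩
    par := fun d => φ.symm (pa M (φ d))
    depth := fun d => (M (φ d).1).depth (φ d).2
    e := fun d d' => ee M (φ d) (φ d')
    rad_pos := fun d => (M _).rad_pos _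
    disj := ?_
    own_root := ?_
    par_root := ?_
    depth_eq_zero := ?_
    own_par := ?_
    depth_par := ?_
    par_touch := ?_
    e_symm := ?_
    e_touch := ?_
    e_sum := ?_
    size := ?_
    balance := ?_ }⟩
  · intro d d' hd
    have h1 : φ d ≠ φ d' := fun h => hd (φ.injective h)
    generalize φ d = x at h1
    generalize φ d' = y at h1
    obtain ⟨i, k⟩ := x
    obtain ⟨j, l⟩ := y
    by_cases hij : i = j
    · subst hij
      rw [dsame]
      exact (M i).disj k l (fun h => h1 (by rw [h]))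
    · exact ddiff ⟨i, k⟩ ⟨j, l⟩ hij
  · intro v
    simp only [Equiv.apply_symm_apply]
    unfold ow
    simp [(M v.1).own_root]
  · intro v
    simp only [Equiv.apply_symm_apply]
    congr 1
    unfold pa
    simp [(M v.1).par_root]
  · intro d
    have h1 : (d = φ.symm ⟨(ow M (φ d)).1, (M (ow M (φ d)).1).root (ow M (φ d)).2⟩) ↔
        φ d = ⟨(ow M (φ d)).1, (M (ow M (φ d)).1).root (ow M (φ d)).2⟩ := Equiv.eq_symm_apply φ
    rw [h1]
    generalize φ d = x
    obtain ⟨i, k⟩ := x
    show (M i).depth k = 0 ↔ (⟨i, k⟩ : J M) = ⟨i, (M i).root ((M i).own k)⟩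
    rw [(M i).depth_eq_zero]
    constructor
    · intro h
      exact congrArg (Sigma.mk i) h
    · intro h
      exact eq_of_heq (Sigma.mk.inj h).2
  · intro d
    simp only [Equiv.apply_symm_apply]
    unfold ow pa
    simp [(M _).own_par]
  · intro d hd
    show (M (φ (φ.symm (pa M (φ d)))).1).depth (φ (φ.symm (pa M (φ d)))).2 + 1 = _
    rw [Equiv.apply_symm_apply]
    exact (M _).depth_par _ hd
  · intro d hd
    show dist (ct (φ d)) (ct (φ (φ.symm (pa M (φ d))))) = (M (φ d).1).rad (φ d).2 +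
      (M (φ (φ.symm (pa M (φ d)))).1).rad (φ (φ.symm (pa M (φ d)))).2 ∧
      (M (φ d).1).rad (φ d).2 ≤ K * (M (φ (φ.symm (pa M (φ d)))).1).rad
        (φ (φ.symm (pa M (φ d)))).2 ∧
      (M (φ (φ.symm (pa M (φ d)))).1).rad (φ (φ.symm (pa M (φ d)))).2 ≤
        K * (M (φ d).1).rad (φ d).2
    rw [Equiv.apply_symm_apply]
    change (M (φ d).1).depth (φ d).2 ≠ 0 at hd
    generalize φ d = x at hd
    obtain ⟨i, k⟩ := x
    show dist (ct ⟨i, k⟩) (ct ⟨i, (M i).par k⟩) = _ ∧ _
    rw [dsame]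
    exact (M i).par_touch k hd
  · intro d d'
    generalize φ d = x
    generalize φ d' = y
    obtain ⟨i, k⟩ := x
    obtain ⟨j, l⟩ := y
    by_cases hij : i = j
    · subst hij
      rw [ee_same, ee_same]
      exact (M i).e_symm k l
    · rw [ee_ne M k l hij, ee_ne M l k (Ne.symm hij)]
  · intro d d' hd
    generalize φ d = x at hd
    generalize φ d' = y at hd
    obtain ⟨i, k⟩ := x
    obtain ⟨j, l⟩ := y
    by_cases hij : i = j
    · subst hij
      rw [ee_same] at hd
      rw [dsame]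
      exact (M i).e_touch k l hd
    · exact absurd (ee_ne M k l hij) hd
  · intro u v
    have e1 : ∀ (f : J M → J M → ℕ) (u v : Σ i, V i),
        (∑ d with ow M (φ d) = u, ∑ d' with ow M (φ d') = v, f (φ d) (φ d')) =
        ∑ x with ow M x = u, ∑ y with ow M y = v, f x y := by
      intro f u v
      rw [Finset.sum_filter, Finset.sum_filter,
        ← Equiv.sum_comp φ (fun x => if ow M x = u then ∑ y with ow M y = v, f x y else 0)]
      refine Finset.sum_congr rfl (fun d _ => ?_)
      congr 1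
      rw [Finset.sum_filter, Finset.sum_filter,
        ← Equiv.sum_comp φ (fun y => if ow M y = v then f (φ d) y else 0)]
    suffices hs : ∑ x with ow M x = u, ∑ y with ow M y = v, ee M x y = sigC c u v by
      rw [← hs, ← e1 (ee M) u v]
      congr!
    obtain ⟨i, a⟩ := u
    obtain ⟨j, b⟩ := v
    rw [sum_own]
    by_cases hij : i = j
    · subst hij
      rw [sig_same, ← (M i).e_sum a b]
      refine Finset.sum_congr rfl (fun k _ => ?_)
      rw [sum_own]
      exact Finset.sum_congr rfl (fun l _ => ee_same M i k l)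
    · rw [sig_ne a b hij]
      refine Finset.sum_eq_zero (fun k _ => ?_)
      rw [sum_own]
      exact Finset.sum_eq_zero (fun l _ => ee_ne M k l hij)
  · intro v
    obtain ⟨i, a⟩ := v
    rw [deg_sig]
    have h1 : (Finset.univ.filter (fun d => ow M (φ d) = ⟨i, a⟩)).card =
        (Finset.univ.filter (fun k => (M i).own k = a)).card := by
      rw [Finset.card_eq_sum_ones, Finset.card_eq_sum_ones, ← sum_own M (fun _ => 1),
        Finset.sum_filter, Finset.sum_filter,
        ← Equiv.sum_comp φ (fun x => if ow M x = ⟨i, a⟩ then 1 else 0)]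
    have h2 := (M i).size a
    rw [← h1] at h2
    convert h2
  · intro d
    have h1 : ∀ (d : Fin (Fintype.card (J M))), ∀ n (d' : Fin (Fintype.card (J M))),
        (fun d => φ.symm (pa M (φ d)))^[n] d' = φ.symm ((pa M)^[n] (φ d')) := by
      intro d n
      induction n with
      | zero => intro d'; simp
      | succ n ih =>
        intro d'
        rw [Function.iterate_succ_apply, ih, Function.iterate_succ_apply, Equiv.apply_symm_apply]
    have h2 : (∑ d' with (∃ i, (fun d => φ.symm (pa M (φ d)))^[i] d' = d),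
        ∑ d'', ee M (φ d') (φ d'')) =
        ∑ x with (∃ n, (pa M)^[n] x = φ d), ∑ y, ee M x y := by
      rw [Finset.sum_filter, Finset.sum_filter,
        ← Equiv.sum_comp φ (fun x => if ∃ n, (pa M)^[n] x = φ d then ∑ y, ee M x y else 0)]
      refine Finset.sum_congr rfl (fun d' _ => ?_)
      rw [Equiv.sum_comp φ (fun y => ee M (φ d') y)]
      congr 1
      simp only [h1 d, Equiv.symm_apply_eq]
    rw [h2]
    generalize φ d = x
    obtain ⟨i, k⟩ := x
    have h3 : (∑ x with (∃ n, (pa M)^[n] x = (⟨i, k⟩ : J M)), ∑ y, ee M x y) =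
        ∑ k' with (∃ n, ((M i).par)^[n] k' = k), ∑ l, (M i).e k' l := by
      rw [Finset.sum_filter, sum_all M _ i, Finset.sum_filter]
      · refine Finset.sum_congr rfl (fun k' _ => ?_)
        rw [sum_all M (fun y => ee M ⟨i, k'⟩ y) i (fun j hj l => ee_ne M k' l (Ne.symm hj))]
        have h4 : (∃ n, (pa M)^[n] ⟨i, k'⟩ = (⟨i, k⟩ : J M)) ↔
            ∃ n, ((M i).par)^[n] k' = k := by
          refine exists_congr (fun n => ?_)
          rw [pa_iter]
          constructor
          · intro h; exact eq_of_heq (Sigma.mk.inj h).2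
          · intro h; exact congrArg (Sigma.mk i) h
        simp only [h4, ee_same]
      · intro j hj l
        rw [if_neg]
        rintro ⟨n, hn⟩
        rw [pa_iter] at hn
        exact hj (congrArg Sigma.fst hn)
    rw [h3]
    have h5 : SPR.deg (sigC c) (ow M ⟨i, k⟩) = SPR.deg (c i) ((M i).own k) := deg_sig i _
    rw [h5]
    exact (M i).balance k

end

end E11h48

open E11h48 in
/-- row E11 -/
theorem st_E11 : ST_E11 := by
  intro K ι _ V _ c hK h
  haveI := Fintype.ofFinite ι
  haveI : ∀ i, Fintype (V i) := fun i => Fintype.ofFinite (V i)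
  exact main (fun i => (h i).some) hK

end QR
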